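import Pool.Agent.Lib.MP_a9445a_lc.Mg.G140
import Pool.Agent.Lib.MP_a9445a_lc.Mg.G085
import Pool.Agent.Lib.MP_a9445a_lc.Mg.G145

/-! The theorem. -/

set_option autoImplicit false

open Finset

namespace Pool.Agent.MPa9445a.DB

open Pool.Agent.MPa9445a.BE (nth arrG IsMinBisection gt fm_arrG nth_nat)

private theorem Fin_poly (d : ℕ) {ρ : ℝ} (hρ : 1 < ρ) :
    ∃ C : ℝ, 0 < C ∧ ∀ n : ℕ, ((n : ℝ) + 2) ^ d ≤ C * ρ ^ n := by
  have h := tendsto_pow_const_div_const_pow_of_one_lt d hρ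
  obtain ⟨M, hM⟩ := h.bddAbove_range
  have hρ0 : 0 < ρ := by linarith
  refine ⟨(|M| + 1) * ρ ^ 2, by positivity, fun n => ?_⟩
  have h1 : ((n + 2 : ℕ) : ℝ) ^ d / ρ ^ (n + 2) ≤ M := hM ⟨n + 2, rfl⟩
  have h2 : (0 : ℝ) < ρ ^ (n + 2) := by positivity
  rw [div_le_iff₀ h2] at h1
  have h3 : ((n + 2 : ℕ) : ℝ) = (n : ℝ) + 2 := by push_cast; ring
  rw [h3] at h1
  calc ((n : ℝ) + 2) ^ d ≤ M * ρ ^ (n + 2) := h1
    _ ≤ (|M| + 1) * ρ ^ (n + 2) := by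
        apply mul_le_mul_of_nonneg_right _ h2.le
        linarith [le_abs_self M]
    _ = (|M| + 1) * ρ ^ 2 * ρ ^ n := by ring

private theorem Fin_exp (d : ℕ) {ε : ℝ} (hε : 0 < ε) :
    ∃ C : ℝ, 0 < C ∧ ∀ n : ℕ, ((n : ℝ) + 2) ^ d ≤ C * 2 ^ (ε * n) := by
  obtain ⟨C, hC, h⟩ := Fin_poly d (ρ := (2 : ℝ) ^ ε) (Real.one_lt_rpow (by norm_num) hε)
  refine ⟨C, hC, fun n => (h n).trans (le_of_eq ?_)⟩
  rw [Real.rpow_mul (by norm_num), Real.rpow_natCast]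

private theorem Fin_pow {τ x : ℝ} {n : ℕ} (h : x ≤ (2 : ℝ) ^ ((τ / 3 - 0.0002) * n)) :
    x ≤ (2 : ℝ) ^ ((τ / 3 - 0.000000001) * n) := by
  refine h.trans ?_
  apply Real.rpow_le_rpow_of_exponent_le (by norm_num)
  have hn : (0 : ℝ) ≤ n := Nat.cast_nonneg n
  exact mul_le_mul_of_nonneg_right (by linarith) hn

private theorem Fin_pow4 {τ x : ℝ} {n : ℕ} (h : x ≤ (2 : ℝ) ^ ((τ / 3 - 0.0004) * n)) :
    x ≤ (2 : ℝ) ^ ((τ / 3 - 0.000000001) * n) := by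
  refine h.trans ?_
  apply Real.rpow_le_rpow_of_exponent_le (by norm_num)
  have hn : (0 : ℝ) ≤ n := Nat.cast_nonneg n
  exact mul_le_mul_of_nonneg_right (by linarith) hn

private theorem Fin_wD {τ : ℝ} (hτ : 2.362 ≤ τ) {n : ℕ} (hn : 10 ^ 16 ≤ n) :
    (2 : ℝ) ^ (2 * (n - nJ n)) * wD τ n ≤ (2 : ℝ) ^ ((τ / 3 - 0.0004) * n) := by
  unfold wD
  rw [w0_eq]
  set m := mB n with hm
  have hm' : m ≤ 5002 * nJ n / 10000 := le_refl _
  have e1 : (2 : ℝ) ^ (2 * (n - nJ n)) = (2 : ℝ) ^ (2 * ((n - nJ n : ℕ) : ℝ)) := by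
    rw [← Real.rpow_natCast]
    push_cast
    rfl
  have e2 : (2 : ℝ) ^ (6106 * m / 10000 + 4) ≤ (2 : ℝ) ^ (0.6106 * (m : ℝ) + 4) := by
    rw [← Real.rpow_natCast]
    apply Real.rpow_le_rpow_of_exponent_le (by norm_num)
    have h1 : 6106 * m / 10000 * 10000 ≤ 6106 * m := Nat.div_mul_le_self _ _
    have h2 : ((6106 * m / 10000 : ℕ) : ℝ) * 10000 ≤ 6106 * m := by exact_mod_cast h1
    push_cast
    linarith
  rw [e1]
  have h4 := wM_le (τ := τ) (by linarith) (wc m)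
  have h5 : (0 : ℝ) ≤ wM τ (wc m) := by unfold wM; positivity
  have hn' : (10 : ℝ) ^ 16 ≤ n := by exact_mod_cast hn
  calc (2 : ℝ) ^ (2 * ((n - nJ n : ℕ) : ℝ)) * ((2 : ℝ) ^ (6106 * m / 10000 + 4) * wM τ (wc m))
      ≤ (2 : ℝ) ^ (2 * ((n - nJ n : ℕ) : ℝ)) * ((2 : ℝ) ^ (0.6106 * (m : ℝ) + 4) *
        (2 : ℝ) ^ (τ * ((wc m : ℝ) + 1))) := by gcongr
    _ = (2 : ℝ) ^ (2 * ((n - nJ n : ℕ) : ℝ) + ((0.6106 * (m : ℝ) + 4) + τ * ((wc m : ℝ) + 1))) := by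
        rw [Real.rpow_add (by norm_num) (2 * ((n - nJ n : ℕ) : ℝ)),
          Real.rpow_add (by norm_num) (0.6106 * (m : ℝ) + 4)]
    _ ≤ (2 : ℝ) ^ ((τ / 3 - 0.0004) * n) := by
        apply Real.rpow_le_rpow_of_exponent_le (by norm_num)
        have a1 := sub_real n
        have a2 := m_real hm'
        obtain ⟨a3, -⟩ := wc_real m
        have hm0 : (0 : ℝ) ≤ m := Nat.cast_nonneg m
        have key : τ * (wc m : ℝ) ≤ τ * (0.1298 * (0.39370742 * n)) := by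
          apply mul_le_mul_of_nonneg_left _ (by linarith)
          linarith
        have hs : 0 ≤ (τ - 2.362) * ((n : ℝ) - 10 ^ 16) :=
          mul_nonneg (by linarith) (by linarith)
        nlinarith

private theorem Fin_wY {τ : ℝ} (hτ : 2.362 ≤ τ) {n : ℕ} (hn : 10 ^ 16 ≤ n) :
    (2 : ℝ) ^ (2 * (n - nJ n)) * (((2 ^ w0 n : ℕ) : ℝ) * wY τ n) ≤
      (2 : ℝ) ^ ((τ / 3 - 0.0004) * n) := by
  refine le_trans ?_ (num_best hτ hn (m := mB n) le_rfl)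
  unfold wY
  have h5 : (0 : ℝ) ≤ wM τ (mB n / 3) := by unfold wM; positivity
  have h6 : (1 : ℝ) ≤ (2 : ℝ) ^ (mB n - 3 * (mB n / 3)) := one_le_pow₀ (by norm_num)
  push_cast
  gcongr
  nlinarith

/-- The weight of a round for large `n`. -/
theorem wR_le {τ : ℝ} (hτ : 2.362 ≤ τ) {n : ℕ} (hn : 10 ^ 16 ≤ n) :
    wR τ n ≤ 4 * (2 : ℝ) ^ ((τ / 3 - 0.000000001) * n) := by
  have h1 : wJ n ≤ (2 : ℝ) ^ ((τ / 3 - 0.000000001) * n) := Fin_pow (num_reg hτ n)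
  have h2 := BW.wB_le (τ := τ) (by linarith) (le_trans (by norm_num) hn : 10000000000 ≤ n)
  have h3 := Fin_pow4 (Fin_wD hτ hn)
  have h4 := Fin_pow4 (Fin_wY hτ hn)
  unfold wR
  rw [mul_add]
  linarith

private theorem Fin_cost (d n₀ : ℕ) (hn₀ : 10 ^ 16 ≤ n₀) : ∃ C : ℝ, ∀ (n : ℕ) (τ : ℝ), 2.362 ≤ τ →
    ((n : ℝ) + 2) ^ d * wP n₀ τ n ≤ C * 2 ^ ((τ / 3 - 0.0000000005) * n) := by
  obtain ⟨C₂, hC₂, h2⟩ := Fin_exp d (ε := 0.0000000005) (by norm_num)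
  refine ⟨((n₀ : ℝ) + 2) ^ d * 2 ^ n₀ + 4 * C₂, fun n τ hτ => ?_⟩
  have hn : (0 : ℝ) ≤ n := Nat.cast_nonneg n
  have hone : (1 : ℝ) ≤ 2 ^ ((τ / 3 - 0.0000000005) * n) :=
    Real.one_le_rpow (by norm_num) (mul_nonneg (by linarith) hn)
  have hpos : (0 : ℝ) < 2 ^ ((τ / 3 - 0.0000000005) * n) := lt_of_lt_of_le one_pos hone
  unfold wP
  split_ifs with hlt
  · have a1 : ((n : ℝ) + 2) ^ d * 2 ^ n ≤ ((n₀ : ℝ) + 2) ^ d * 2 ^ n₀ := by
      have h3 : (n : ℝ) ≤ n₀ := by exact_mod_cast hlt.le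
      refine mul_le_mul ?_ (pow_le_pow_right₀ (by norm_num) hlt.le) (by positivity) (by positivity)
      exact pow_le_pow_left₀ (by positivity) (by linarith) _
    have a2 : (0 : ℝ) ≤ ((n₀ : ℝ) + 2) ^ d * 2 ^ n₀ := by positivity
    nlinarith
  · have a2 : ((n : ℝ) + 2) ^ d * wR τ n ≤ 4 * C₂ * 2 ^ ((τ / 3 - 0.0000000005) * n) := by
      calc ((n : ℝ) + 2) ^ d * wR τ n ≤
          (C₂ * 2 ^ ((0.0000000005 : ℝ) * n)) * (4 * 2 ^ ((τ / 3 - 0.000000001) * n)) :=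
            mul_le_mul (h2 n) (wR_le hτ (hn₀.trans (not_lt.1 hlt)))
              (zero_le_one.trans (one_le_wR (by linarith) n)) (by positivity)
        _ = 4 * C₂ * (2 ^ ((0.0000000005 : ℝ) * n) * 2 ^ ((τ / 3 - 0.000000001) * n)) := by ring
        _ = 4 * C₂ * 2 ^ ((τ / 3 - 0.0000000005) * n) := by
            rw [← Real.rpow_add (by norm_num)]
            congr 2
            ring
    have a3 : (0 : ℝ) ≤ ((n₀ : ℝ) + 2) ^ d * 2 ^ n₀ * 2 ^ ((τ / 3 - 0.0000000005) * n) := by positivity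
    nlinarith

/-- The main theorem. -/
theorem main_thm : ∃ (e : GD.Ex [.int, .arr] .arr) (C δ : ℝ), 0 < δ ∧
    (∀ (n : ℕ) (G : SimpleGraph (Fin n)) (τ : ℝ), 2.362 ≤ τ →
      e.cost τ ((n : ℤ), arrG G, ()) ≤ C * 2 ^ ((τ / 3 - δ) * n)) ∧
    ∀ n, Even n → ∀ G : SimpleGraph (Fin n), IsMinBisection G (univ.filter fun v : Fin n =>
        nth (e.eval ((n : ℤ), arrG G, ())) (v : ℕ) = 1) := by
  obtain ⟨e, d, he⟩ := main_T (n₀ := 10 ^ 16) le_rfl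
  obtain ⟨C, hC⟩ := Fin_cost d (10 ^ 16) le_rfl
  have hl : ∀ (n : ℕ) (G : SimpleGraph (Fin n)), (arrG G).length ≤ n * n := by
    intro n G
    unfold arrG
    rw [List.length_map, List.length_range]
  have hx : ∀ (n : ℕ) (G : SimpleGraph (Fin n)), ∀ x ∈ arrG G, |x| ≤ 1 := by
    intro n G x hx
    unfold arrG at hx
    rw [List.mem_map] at hx
    obtain ⟨y, _, rfl⟩ := hx
    split_ifs <;> simp
  refine ⟨e, C, 0.0000000005, by norm_num, fun n G τ hτ => ?_, fun n hn G => ?_⟩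
  · exact ((he n (arrG G) (hl n G) (hx n G)).2 τ (by linarith)).trans (hC n τ hτ)
  · rw [(he n (arrG G) (hl n G) (hx n G)).1]
    have h1 := out_min hn G (n₀ := 10 ^ 16) le_rfl (hx n G) (fm_arrG G)
    have h2 : (univ.filter fun v : Fin n => nth (out (10 ^ 16) n (arrG G)) (v : ℕ) = 1) =
        univ.filter fun v : Fin n => gt (out (10 ^ 16) n (arrG G)) v = 1 :=
      Finset.filter_congr fun v _ => by rw [nth_nat]
    rw [h2]
    exact h1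

end Pool.Agent.MPa9445a.DB
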